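import Mathlib
import Pool.Agent.Lib.MP_f387d3_mp.AI.Lim
import Pool.Agent.Lib.MP_f387d3_mp.AI.Exist

set_option autoImplicit false

namespace Pool.Agent.Results.MP_f387d3_mp.AiryPeak

open Filter Topology

/-- A checker path with `t` steps from the origin is given by its steps: `true` is the step
`(1,1)` and `false` is the step `(-1,1)`. These are the paths from `(0,0)` to `(x,t)` whose first
step goes to `(1,1)`. -/
def paths (x : ℤ) (t : ℕ) : Finset (Fin t → Bool) :=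
  Finset.univ.filter fun s =>
    (∀ i : Fin t, i.val = 0 → s i = true) ∧ ∑ i, (if s i = true then (1 : ℤ) else -1) = x

/-- The number of turns: pairs of consecutive steps that differ. -/
def turns {t : ℕ} (s : Fin t → Bool) : ℕ :=
  (Finset.univ.filter fun p : Fin t × Fin t => p.2.val = p.1.val + 1 ∧ s p.1 ≠ s p.2).card

/-- The amplitude `a(x,t)`. -/
noncomputable def amp (x : ℤ) (t : ℕ) : ℂ :=
  ((2 : ℝ) ^ ((1 - (t : ℝ)) / 2) : ℝ) * Complex.I * ∑ s ∈ paths x t, (-Complex.I) ^ turns s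

/-- The probability `P(x,t)`. -/
noncomputable def prob (x : ℤ) (t : ℕ) : ℝ := ‖amp x t‖ ^ 2

lemma turns_eq {n : ℕ} (s : Fin (n + 1) → Bool) :
    turns s = (Finset.univ.filter (fun i : Fin n => s i.castSucc ≠ s i.succ)).card := by
  unfold turns
  symm
  refine Finset.card_bij (fun i _ => (i.castSucc, i.succ)) (fun i hi => ?_) (fun i _ j _ h => ?_)
    (fun p hp => ?_)
  · simpa using hi
  · exact Fin.castSucc_injective _ (congrArg Prod.fst h)
  · obtain ⟨h1, h2⟩ := (Finset.mem_filter.1 hp).2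
    have h3 := p.2.isLt
    have e1 : (⟨p.1.val, by omega⟩ : Fin n).castSucc = p.1 := Fin.ext rfl
    have e2 : (⟨p.1.val, by omega⟩ : Fin n).succ = p.2 := Fin.ext h1.symm
    refine ⟨⟨p.1.val, by omega⟩, ?_, by rw [e1, e2]⟩
    rw [Finset.mem_filter, e1, e2]
    exact ⟨Finset.mem_univ _, h2⟩

lemma prob_eq (x : ℤ) (n : ℕ) : prob x (n + 1) = ((2 : ℝ) ^ ((1 - ((n + 1 : ℕ) : ℝ)) / 2)) ^ 2
    * ‖Pool.Agent.Lib.MP_f387d3_mp.T n true x‖ ^ 2 := by
  have e : paths x (n + 1) = Finset.univ.filter (fun s : Fin (n + 1) → Bool =>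
      s 0 = true ∧ ∑ i, (if s i then (1 : ℤ) else -1) = x) := by
    unfold paths
    refine Finset.filter_congr fun s _ => and_congr_left' ⟨fun h => h 0 rfl, fun h i hi => ?_⟩
    rw [show i = 0 from Fin.ext hi, h]
  unfold prob amp Pool.Agent.Lib.MP_f387d3_mp.T
  rw [e, norm_mul, norm_mul, Complex.norm_I, mul_one, Complex.norm_real, Real.norm_eq_abs,
    mul_pow, sq_abs]
  simp only [turns_eq]

/-- There is a solution `A` of the Airy equation (with derivative `A'`) that tends to zero at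
`+∞`, is positive from `-c` on, and has a critical point at `-c`. -/
def IsAiryPeak (c : ℝ) : Prop :=
  0 < c ∧ ∃ A A' : ℝ → ℝ, (∀ s, HasDerivAt A (A' s) s) ∧ (∀ s, HasDerivAt A' (s * A s) s) ∧
    Tendsto A atTop (𝓝 0) ∧ (∀ s, -c ≤ s → 0 < A s) ∧ A' (-c) = 0

/-- A number `c` as in `IsAiryPeak` exists, and for it every most probable position is within a
bounded distance of `t / sqrt 2 - c / 2 ^ (5/6) * t ^ (1/3)`. -/
theorem result : (∃ c : ℝ, IsAiryPeak c) ∧ ∀ c : ℝ, IsAiryPeak c → ∃ C : ℝ, ∀ t : ℕ, 1 ≤ t →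
    ∀ x : ℤ, (∀ y : ℤ, prob y t ≤ prob x t) →
      |(x : ℝ) - ((t : ℝ) / Real.sqrt 2 - c / (2 : ℝ) ^ ((5 : ℝ) / 6) * (t : ℝ) ^ ((1 : ℝ) / 3))|
        ≤ C := by
  constructor
  · obtain ⟨A, A', c, h1, h2, h3, hc, h4, h5⟩ := Pool.Agent.Lib.MP_f387d3_mp.AI.exists_airy
    exact ⟨c, hc, A, A', h1, h2, h3, h4, h5⟩
  rintro c ⟨hc, A, A', h1, h2, h3, h4, h5⟩
  obtain ⟨C, hC⟩ := Pool.Agent.Lib.MP_f387d3_mp.AI.bounded h1 h2 h3 hc h4 h5
  refine ⟨C, fun t ht x hx => ?_⟩
  obtain ⟨n, rfl⟩ : ∃ n, t = n + 1 := ⟨t - 1, by omega⟩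
  have := hC n x (fun y => by
    have h := hx y
    rw [prob_eq, prob_eq] at h
    exact le_of_mul_le_mul_left h (by positivity))
  simpa only [Nat.cast_add, Nat.cast_one] using this

end Pool.Agent.Results.MP_f387d3_mp.AiryPeak
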